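import Pool.Agent.J6H82.Kollar.Final

/-!
# Kollar's conjecture on the canonical algebra of smoothings of rational surface singularities fails

The counterexample.  Let `ℓ_i : Y = s_i X + c_i Z`, `i = 1, ..., 11`, be the eleven lines of the projective
plane constructed in `Count1`: each of them meets the cuspidal cubic `Y Z ^ 2 = X ^ 3 - 9 X Z ^ 2` in three
out of twelve chosen points, and altogether the eleven lines have 37 intersection points.  The ring `A` is
generated over `k[X, Y, Z]` by the eleven functions `∏_{p ∈ ℓ_i} (X - x_p Z) / ℓ_i`, the product being over
the intersection points on the line `ℓ_i`.  It is the ring of the regular functions on the blow-up of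
`𝔸³` in the 37 lines through the origin given by the 37 points, outside the strict transforms of the
planes `ℓ_i = 0`.  The function `g` is `Z`; the fibre of `g` over the origin has one rational singularity,
with a star-shaped resolution with eleven arms, and `g` is smooth outside this fibre.
-/

namespace Pool.Agent.Results.MP_20b407_ag.KollarCounterexample

open Pool.Agent.J6H82.Kollar

/-- There are a rational surface singularity and a one-parameter smoothing of it whose canonical algebra is
not finitely generated. -/
theorem result (k : Type) [Field k]
    [CharZero k] :
    ∃ (A : Type) (_ : CommRing A) (_ : Algebra k A) (g : A) (𝔪 : Ideal A) (_ : 𝔪.IsPrime),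
      IsSmoothingOfRational k A g 𝔪 ∧ CanonicalAlgebraNotFG k (Localization.AtPrime 𝔪) 3 :=
  counterexample k

end Pool.Agent.Results.MP_20b407_ag.KollarCounterexample
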